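import Pool.Agent.H28.MZ.Targets
import Pool.Agent.H67.Cubic.Abel

/-! Module KS: the sum over k at a fixed frequency. -/

set_option autoImplicit false

open Finset

namespace Pool.Agent.H32.PZ

open Pool.Agent.H28.MZ
open Pool.Agent.H23.GLH (PrimChar)

lemma exp_bd {v : ℝ} (hv : |v| ≤ 1 / 10) : 9 / 10 ≤ Real.exp v ∧ Real.exp v ≤ 12 / 10 := by
  have h1 := (abs_le.mp hv)
  constructor
  · have := Real.add_one_le_exp v
    linarith [h1.1]
  · have h2 : Real.exp v ≤ Real.exp (1 / 10) := Real.exp_le_exp.mpr h1.2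
    have h3 := Real.add_one_le_exp (-(1 / 10 : ℝ))
    have h4 : Real.exp (1 / 10 : ℝ) * Real.exp (-(1 / 10 : ℝ)) = 1 := by
      rw [← Real.exp_add]; simp
    have h5 : 0 < Real.exp (1 / 10 : ℝ) := Real.exp_pos _
    nlinarith

/-- location of the variable -/
lemma loc {q : ℕ} (hq : 1 ≤ q) {r T D K y : ℝ} (hr : 1 < r) (hT : 1 ≤ T) (hK : 0 < K)
    (hD : D * K ^ r = T / q) (hy : 0 < y) (h1 : T / (4 * Real.pi) ≤ D * y ^ r)
    (h2 : D * y ^ r ≤ 2 * T / Real.pi) : K / (4 * Real.pi) ≤ y ∧ y ≤ 2 * q * K := by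
  have hpi := Real.pi_gt_three
  have hq' : (1 : ℝ) ≤ q := by exact_mod_cast hq
  have hKr : 0 < K ^ r := Real.rpow_pos_of_pos hK r
  have e1 : (y / K) ^ r = q * (D * y ^ r) / T := by
    rw [Real.div_rpow hy.le hK.le]
    have hD' : D = T / q / K ^ r := by
      rw [eq_div_iff hKr.ne']
      exact hD
    rw [hD']
    field_simp
  have hyK : 0 < y / K := div_pos hy hK
  constructor
  · by_contra hcon
    push Not at hcon
    have h3 : y / K < 1 / (4 * Real.pi) := by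
      rw [div_lt_div_iff₀ hK (by positivity)]
      rw [lt_div_iff₀ (by positivity)] at hcon
      linarith
    have h4 : y / K ≤ 1 := by
      refine h3.le.trans ?_
      rw [div_le_one (by positivity)]
      linarith
    have h5 : (y / K) ^ r ≤ y / K := by
      calc (y / K) ^ r ≤ (y / K) ^ (1 : ℝ) :=
            Real.rpow_le_rpow_of_exponent_ge hyK h4 hr.le
        _ = _ := Real.rpow_one _
    have h6 : (1 : ℝ) / (4 * Real.pi) ≤ (y / K) ^ r := by
      rw [e1, div_le_div_iff₀ (by positivity) (by linarith)]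
      have h7 : T / (4 * Real.pi) * (4 * Real.pi) = T := by field_simp
      have h8 : 0 < 4 * Real.pi := by positivity
      have h9 : T ≤ D * y ^ r * (4 * Real.pi) := by
        rw [← h7]
        exact mul_le_mul_of_nonneg_right h1 h8.le
      have h10 : 0 ≤ D * y ^ r * (4 * Real.pi) := by linarith
      nlinarith
    linarith
  · by_contra hcon
    push Not at hcon
    have h3 : 2 * (q : ℝ) < y / K := by
      rw [lt_div_iff₀ hK]
      exact hcon
    have h4 : 1 ≤ y / K := by linarith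
    have h5 : y / K ≤ (y / K) ^ r := by
      calc y / K = (y / K) ^ (1 : ℝ) := (Real.rpow_one _).symm
        _ ≤ _ := Real.rpow_le_rpow_of_exponent_le h4 hr.le
    have h6 : (y / K) ^ r ≤ 2 * q := by
      rw [e1, div_le_iff₀ (by linarith)]
      have h7 : D * y ^ r ≤ 2 * T := by
        refine h2.trans ?_
        rw [div_le_iff₀ (by positivity)]
        nlinarith
      nlinarith
    linarith

/-- one residue class -/
lemma core (hVS : T_VS) (q₂ q : ℕ) (hq₂ : 1 ≤ q₂) (hq : 1 ≤ q) (r : ℝ) (hr : 1 < r) :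
    ∃ C : ℝ, 0 < C ∧ ∀ (T D K τ v : ℝ), 1 ≤ T → 0 < D → 0 < K → D * K ^ r = T / q →
      |τ| ≤ r * (r - 1) / 8 * T → |v| ≤ 1 / 10 → ∀ (b : ℕ) (J : Finset ℕ),
      (∀ x ∈ J, ∀ z ∈ J, ∀ y, x ≤ y → y ≤ z → y ∈ J) →
      (∀ j ∈ J, 1 ≤ b + q₂ * j ∧ T / (4 * Real.pi) ≤ D * ((b + q₂ * j : ℕ) : ℝ) ^ r ∧
        D * ((b + q₂ * j : ℕ) : ℝ) ^ r ≤ 2 * T / Real.pi) →
      ‖∑ j ∈ J, ei (τ * Real.log ((b + q₂ * j : ℕ) : ℝ) +
        2 * Real.pi * (D * ((b + q₂ * j : ℕ) : ℝ) ^ r) * Real.exp v)‖ ≤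
        C * (Real.sqrt T + K / Real.sqrt T) := by
  have hpi := Real.pi_gt_three
  have hpi4 := Real.pi_lt_d2
  have hq' : (1 : ℝ) ≤ q := by exact_mod_cast hq
  have hq₂' : (1 : ℝ) ≤ q₂ := by exact_mod_cast hq₂
  set ρ := r * (r - 1) with hρ
  have hρ0 : 0 < ρ := mul_pos (by linarith) (by linarith)
  set α : ℝ := (8 * Real.pi * q) ^ 2 * 20 with hα
  have hα1 : 1 ≤ α := by
    have h1 : 1 ≤ 8 * Real.pi * q := by nlinarith
    have h2 : 1 ≤ (8 * Real.pi * q) ^ 2 := one_le_pow₀ h1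
    linarith
  obtain ⟨C, hC, hvs⟩ := hVS α hα1
  set s₀ := Real.sqrt (ρ / 20) with hs₀
  have hs₀0 : 0 < s₀ := Real.sqrt_pos.mpr (by positivity)
  refine ⟨C * ((1 + q₂) * s₀ + (2 * q / q₂) / s₀), by positivity, ?_⟩
  intro T D K τ v hT hD0 hK hD hτ hv b J hconv hJ
  have hT0 : 0 < T := by linarith
  have hsT : 0 < Real.sqrt T := Real.sqrt_pos.mpr hT0
  rcases J.eq_empty_or_nonempty with rfl | hne
  · simp only [sum_empty, norm_zero]
    positivity
  set A := J.min' hne with hA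
  set B := J.max' hne with hB
  have hAJ : A ∈ J := J.min'_mem hne
  have hBJ : B ∈ J := J.max'_mem hne
  have hAB : A ≤ B := J.min'_le _ hBJ
  have hJeq : J = Icc A B := by
    ext x
    rw [mem_Icc]
    constructor
    · intro hx
      exact ⟨J.min'_le _ hx, J.le_max' _ hx⟩
    · rintro ⟨h1, h2⟩
      exact hconv A hAJ B hBJ x h1 h2
  have hAp := hJ A hAJ
  have hBp := hJ B hBJ
  -- location for real points
  have hreal : ∀ x : ℝ, (A : ℝ) ≤ x → x ≤ B → 1 ≤ (b : ℝ) + q₂ * x ∧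
      T / (4 * Real.pi) ≤ D * ((b : ℝ) + q₂ * x) ^ r ∧
      D * ((b : ℝ) + q₂ * x) ^ r ≤ 2 * T / Real.pi := by
    intro x hx1 hx2
    have h1 : (1 : ℝ) ≤ (b : ℝ) + q₂ * A := by exact_mod_cast hAp.1
    have h2 : (b : ℝ) + q₂ * A ≤ b + q₂ * x := by gcongr
    have h3 : (b : ℝ) + q₂ * x ≤ b + q₂ * B := by gcongr
    have h4 := hAp.2.1
    have h5 := hBp.2.2
    push_cast at h4 h5
    have h6 : 0 ≤ (b : ℝ) + q₂ * A := by linarith
    have h7 : 0 ≤ (b : ℝ) + q₂ * x := by linarith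
    refine ⟨h1.trans h2, h4.trans ?_, le_trans ?_ h5⟩
    · exact mul_le_mul_of_nonneg_left (Real.rpow_le_rpow h6 h2 (by linarith)) hD0.le
    · exact mul_le_mul_of_nonneg_left (Real.rpow_le_rpow h7 h3 (by linarith)) hD0.le
  have hloc : ∀ x : ℝ, (A : ℝ) ≤ x → x ≤ B → K / (4 * Real.pi) ≤ (b : ℝ) + q₂ * x ∧
      (b : ℝ) + q₂ * x ≤ 2 * q * K := by
    intro x hx1 hx2
    have h1 := hreal x hx1 hx2
    exact loc hq hr hT hK hD (by linarith [h1.1]) h1.2.1 h1.2.2
  -- the phase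
  set f : ℝ → ℝ := fun x => (τ * Real.log ((b : ℝ) + q₂ * x) +
    2 * Real.pi * (D * ((b : ℝ) + q₂ * x) ^ r) * Real.exp v) / (2 * Real.pi) with hf
  set f' : ℝ → ℝ := fun x => (τ * (q₂ / ((b : ℝ) + q₂ * x)) +
    2 * Real.pi * (D * (q₂ * r * ((b : ℝ) + q₂ * x) ^ (r - 1))) * Real.exp v) / (2 * Real.pi)
    with hf'
  set f'' : ℝ → ℝ := fun x => (τ * (-(q₂ * q₂) / ((b : ℝ) + q₂ * x) ^ 2) +
    2 * Real.pi * (D * (q₂ * r * (q₂ * (r - 1) * ((b : ℝ) + q₂ * x) ^ (r - 1 - 1)))) *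
      Real.exp v) / (2 * Real.pi) with hf''
  set lam : ℝ := (q₂ / (2 * q * K)) ^ 2 * (ρ * T / 20) with hlam
  have hlam0 : 0 < lam := by positivity
  have hlin : ∀ x : ℝ, HasDerivAt (fun x : ℝ => (b : ℝ) + q₂ * x) q₂ x := by
    intro x
    have h1 := ((hasDerivAt_id x).const_mul (q₂ : ℝ)).const_add (b : ℝ)
    simpa using h1
  have hderiv1 : ∀ x ∈ Set.Icc (((A : ℕ) : ℤ) : ℝ) (((B : ℕ) : ℤ) : ℝ),
      HasDerivAt f (f' x) x := by
    intro x hx
    rw [Int.cast_natCast, Int.cast_natCast] at hx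
    have h1 := (hreal x hx.1 hx.2).1
    have hne : (b : ℝ) + q₂ * x ≠ 0 := by linarith
    have h2 := (hlin x).log hne
    have h3 := (hlin x).rpow_const (p := r) (Or.inl hne)
    have h4 := ((h2.const_mul τ).add (((h3.const_mul D).const_mul (2 * Real.pi)).mul_const
      (Real.exp v))).div_const (2 * Real.pi)
    exact h4
  have hderiv2 : ∀ x ∈ Set.Icc (((A : ℕ) : ℤ) : ℝ) (((B : ℕ) : ℤ) : ℝ),
      HasDerivAt f' (f'' x) x := by
    intro x hx
    rw [Int.cast_natCast, Int.cast_natCast] at hx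
    have h1 := (hreal x hx.1 hx.2).1
    have hne : (b : ℝ) + q₂ * x ≠ 0 := by linarith
    have h2 := (hasDerivAt_const x (q₂ : ℝ)).div (hlin x) hne
    have h3 := (hlin x).rpow_const (p := r - 1) (Or.inl hne)
    have h4 := ((h2.const_mul τ).add ((((h3.const_mul (q₂ * r : ℝ)).const_mul D).const_mul
      (2 * Real.pi)).mul_const (Real.exp v))).div_const (2 * Real.pi)
    refine h4.congr_deriv ?_
    simp only [hf'']
    ring
  have hbd : ∀ x ∈ Set.Icc (((A : ℕ) : ℤ) : ℝ) (((B : ℕ) : ℤ) : ℝ),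
      lam ≤ f'' x ∧ f'' x ≤ α * lam := by
    intro x hx
    rw [Int.cast_natCast, Int.cast_natCast] at hx
    obtain ⟨h1, h2, h3⟩ := hreal x hx.1 hx.2
    obtain ⟨h4, h5⟩ := hloc x hx.1 hx.2
    set y : ℝ := (b : ℝ) + q₂ * x with hy
    have hy0 : 0 < y := by linarith
    have e1 : y ^ (r - 1 - 1) = y ^ r / y ^ 2 := by
      rw [show r - 1 - 1 = r - 2 by ring, Real.rpow_sub hy0]
      norm_num
    have e2 : f'' x = (q₂ / y) ^ 2 * (ρ * (D * y ^ r) * Real.exp v - τ / (2 * Real.pi)) := by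
      simp only [hf'']
      rw [← hy, e1, hρ]
      field_simp
      ring
    obtain ⟨hv1, hv2⟩ := exp_bd hv
    have hτ' := abs_le.mp hτ
    have hlow : ρ * T / 20 ≤ ρ * (D * y ^ r) * Real.exp v - τ / (2 * Real.pi) := by
      have h6 : ρ * (T / (4 * Real.pi)) * (9 / 10) ≤ ρ * (D * y ^ r) * Real.exp v := by gcongr
      have h7 : τ / (2 * Real.pi) ≤ ρ / 8 * T / (2 * Real.pi) := by
        gcongr
        exact hτ'.2
      have h8 : ρ * T / 20 ≤ ρ * (T / (4 * Real.pi)) * (9 / 10) - ρ / 8 * T / (2 * Real.pi) := by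
        have e3 : ρ * (T / (4 * Real.pi)) * (9 / 10) - ρ / 8 * T / (2 * Real.pi) =
            ρ * T * (26 / 160 / Real.pi) := by
          field_simp
          ring
        have e4 : (1 : ℝ) / 20 ≤ 26 / 160 / Real.pi := by
          rw [le_div_iff₀ (by linarith)]
          linarith
        rw [e3]
        calc ρ * T / 20 = ρ * T * (1 / 20) := by ring
          _ ≤ _ := by gcongr
      linarith
    have hupp : ρ * (D * y ^ r) * Real.exp v - τ / (2 * Real.pi) ≤ ρ * T := by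
      have h6 : ρ * (D * y ^ r) * Real.exp v ≤ ρ * (2 * T / Real.pi) * (12 / 10) := by
        gcongr
      have h7 : -(ρ / 8 * T) / (2 * Real.pi) ≤ τ / (2 * Real.pi) := by
        gcongr
        exact hτ'.1
      have h8 : ρ * (2 * T / Real.pi) * (12 / 10) - -(ρ / 8 * T) / (2 * Real.pi) ≤ ρ * T := by
        have e3 : ρ * (2 * T / Real.pi) * (12 / 10) - -(ρ / 8 * T) / (2 * Real.pi) =
            ρ * T * ((24 / 10 + 1 / 16) / Real.pi) := by
          field_simp
          ring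
        have e4 : (24 / 10 + 1 / 16) / Real.pi ≤ 1 := by
          rw [div_le_one (by linarith)]
          linarith
        rw [e3]
        calc _ ≤ ρ * T * 1 := by gcongr
          _ = _ := by ring
      linarith
    have hq1 : (q₂ / (2 * q * K)) ^ 2 ≤ ((q₂ : ℝ) / y) ^ 2 := by gcongr
    have hq2 : ((q₂ : ℝ) / y) ^ 2 ≤ (q₂ / (K / (4 * Real.pi))) ^ 2 := by gcongr
    rw [e2]
    constructor
    · rw [hlam]
      have : 0 ≤ ρ * T / 20 := by positivity
      gcongr
    · have h9 : 0 ≤ ρ * T / 20 := by positivity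
      calc _ ≤ (q₂ / (K / (4 * Real.pi))) ^ 2 * (ρ * T) := by
            apply mul_le_mul hq2 hupp (by linarith) (by positivity)
        _ = α * lam := by
            rw [hα, hlam]
            field_simp
            ring
  have hmain := hvs (A : ℤ) (B : ℤ) f f' f'' lam hlam0 (by exact_mod_cast hAB) hderiv1 hderiv2 hbd
  have hsum : ∑ j ∈ J, ei (τ * Real.log ((b + q₂ * j : ℕ) : ℝ) +
        2 * Real.pi * (D * ((b + q₂ * j : ℕ) : ℝ) ^ r) * Real.exp v) =
      ∑ n ∈ Icc ((A : ℕ) : ℤ) (B : ℤ), ei (2 * Real.pi * f n) := by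
    have e0 : Icc ((A : ℕ) : ℤ) (B : ℤ) = (Icc A B).image (fun n : ℕ => (n : ℤ)) := by
      ext x
      simp only [mem_Icc, mem_image]
      constructor
      · rintro ⟨h1, h2⟩
        exact ⟨x.toNat, by omega, by omega⟩
      · rintro ⟨n, h1, rfl⟩
        constructor <;> omega
    rw [hJeq, e0, sum_image (by intro a _ c _ h; simpa using h)]
    refine sum_congr rfl fun j _ => ?_
    congr 1
    simp only [hf]
    push_cast
    field_simp
  rw [hsum]
  refine hmain.trans ?_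
  have hsl : Real.sqrt lam = q₂ / (2 * q * K) * (s₀ * Real.sqrt T) := by
    rw [hlam, Real.sqrt_mul (by positivity), Real.sqrt_sq (by positivity)]
    congr 1
    rw [hs₀, ← Real.sqrt_mul (by positivity)]
    congr 1
    ring
  rw [hsl]
  have hBloc := (hloc B (by exact_mod_cast hAB) le_rfl).2
  have hb1 := (hreal B (by exact_mod_cast hAB) le_rfl).1
  have hlen : ((B : ℤ) : ℝ) - ((A : ℤ) : ℝ) + 1 ≤ 2 * q * K / q₂ + 1 := by
    rw [Int.cast_natCast, Int.cast_natCast]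
    have h1 : (B : ℝ) ≤ 2 * q * K / q₂ := by
      rw [le_div_iff₀ (by linarith)]
      have : (0 : ℝ) ≤ b := Nat.cast_nonneg b
      linarith
    have h2 : (0 : ℝ) ≤ A := Nat.cast_nonneg A
    linarith
  have hKge : 1 ≤ 2 * q * K := hb1.trans hBloc
  have hfin1 : (((B : ℤ) : ℝ) - ((A : ℤ) : ℝ) + 1) * (q₂ / (2 * q * K) * (s₀ * Real.sqrt T)) ≤
      (1 + q₂) * s₀ * Real.sqrt T := by
    calc _ ≤ (2 * q * K / q₂ + 1) * (q₂ / (2 * q * K) * (s₀ * Real.sqrt T)) := by gcongr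
      _ = (1 + q₂ / (2 * q * K)) * (s₀ * Real.sqrt T) := by
          field_simp
      _ ≤ (1 + q₂) * (s₀ * Real.sqrt T) := by
          gcongr
          exact div_le_self (by linarith) hKge
      _ = _ := by ring
  have hfin2 : 1 / (q₂ / (2 * q * K) * (s₀ * Real.sqrt T)) =
      (2 * q / q₂) / s₀ * (K / Real.sqrt T) := by
    field_simp
  rw [hfin2, mul_assoc C]
  gcongr C * ?_
  have hp1 : 0 ≤ (1 + (q₂ : ℝ)) * s₀ := by positivity
  have hp2 : 0 ≤ (2 * (q : ℝ) / q₂) / s₀ := by positivity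
  have hp3 : 0 ≤ K / Real.sqrt T := by positivity
  calc _ ≤ (1 + q₂) * s₀ * Real.sqrt T + (2 * q / q₂) / s₀ * (K / Real.sqrt T) := by
        gcongr
    _ ≤ _ := by nlinarith [mul_nonneg hp1 hp3, mul_nonneg hp2 hsT.le]


/-- all residue classes -/
lemma classes (hVS : T_VS) (ψ : PrimChar) (q : ℕ) (hq : 1 ≤ q) (r : ℝ) (hr : 1 < r) :
    ∃ C : ℝ, 0 < C ∧ ∀ (T D K τ v : ℝ), 1 ≤ T → 0 < D → 0 < K → D * K ^ r = T / q →
      |τ| ≤ r * (r - 1) / 8 * T → |v| ≤ 1 / 10 → ∀ (S : Finset ℕ),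
      (∀ x ∈ S, ∀ z ∈ S, ∀ y, x ≤ y → y ≤ z → y ∈ S) →
      (∀ k ∈ S, 1 ≤ k ∧ T / (4 * Real.pi) ≤ D * (k : ℝ) ^ r ∧
        D * (k : ℝ) ^ r ≤ 2 * T / Real.pi) →
      ‖∑ k ∈ S, (starRingEnd ℂ) (co ψ k) * ei (τ * Real.log k +
        2 * Real.pi * (D * (k : ℝ) ^ r) * Real.exp v)‖ ≤
        C * (Real.sqrt T + K / Real.sqrt T) := by
  have := ψ.q_ne
  have hq2pos : 1 ≤ ψ.q := Nat.one_le_iff_ne_zero.mpr (NeZero.ne ψ.q)
  obtain ⟨C, hC, hcore⟩ := core hVS ψ.q q hq2pos hq r hr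
  have hq' : (1 : ℝ) ≤ ψ.q := by exact_mod_cast hq2pos
  refine ⟨ψ.q * C, by positivity, ?_⟩
  intro T D K τ v hT hD0 hK hD hτ hv S hconv hS
  set G : ℕ → ℂ := fun k => ei (τ * Real.log k + 2 * Real.pi * (D * (k : ℝ) ^ r) * Real.exp v)
    with hG
  have hsplit : ∑ k ∈ S, (starRingEnd ℂ) (co ψ k) * G k =
      ∑ b ∈ range ψ.q, ∑ k ∈ S.filter (fun k => k % ψ.q = b),
        (starRingEnd ℂ) (co ψ k) * G k := by
    symm
    apply sum_fiberwise_of_maps_to
    intro k _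
    exact mem_range.mpr (Nat.mod_lt _ hq2pos)
  have hclass : ∀ b ∈ range ψ.q, ‖∑ k ∈ S.filter (fun k => k % ψ.q = b),
        (starRingEnd ℂ) (co ψ k) * G k‖ ≤ C * (Real.sqrt T + K / Real.sqrt T) := by
    intro b hb
    have hb' := mem_range.mp hb
    set J : Finset ℕ := (S.filter (fun k => k % ψ.q = b)).image (fun k => k / ψ.q) with hJ
    have hmemJ : ∀ j, j ∈ J ↔ b + ψ.q * j ∈ S := by
      intro j
      rw [hJ, mem_image]
      constructor
      · rintro ⟨k, hk, rfl⟩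
        rw [mem_filter] at hk
        have := Nat.mod_add_div k ψ.q
        rw [hk.2] at this
        rw [this]
        exact hk.1
      · intro h
        refine ⟨b + ψ.q * j, ?_, ?_⟩
        · rw [mem_filter]
          refine ⟨h, ?_⟩
          rw [Nat.add_mul_mod_self_left, Nat.mod_eq_of_lt hb']
        · rw [Nat.add_mul_div_left _ _ hq2pos, Nat.div_eq_of_lt hb', zero_add]
    have e1 : ∑ k ∈ S.filter (fun k => k % ψ.q = b), (starRingEnd ℂ) (co ψ k) * G k =
        (starRingEnd ℂ) (ψ.χ (b : ZMod ψ.q)) * ∑ j ∈ J, G (b + ψ.q * j) := by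
      rw [hJ, sum_image, mul_sum]
      · refine sum_congr rfl fun k hk => ?_
        rw [mem_filter] at hk
        have h1 := Nat.mod_add_div k ψ.q
        rw [hk.2] at h1
        rw [h1]
        congr 2
        unfold co
        rw [if_neg (by have := (hS k hk.1).1; omega)]
        have h2 : ((k : ℕ) : ZMod ψ.q) = (b : ZMod ψ.q) := by
          rw [← h1]
          push_cast
          simp
        rw [h2]
      · intro x hx y hy hxy
        have hx' := (mem_filter.mp (mem_coe.mp hx)).2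
        have hy' := (mem_filter.mp (mem_coe.mp hy)).2
        simp only at hxy
        rw [← Nat.mod_add_div x ψ.q, ← Nat.mod_add_div y ψ.q, hx', hy', hxy]
    rw [e1, norm_mul, RCLike.norm_conj]
    have h1 : ‖ψ.χ (b : ZMod ψ.q)‖ ≤ 1 := ψ.χ.norm_le_one _
    have h2 := hcore T D K τ v hT hD0 hK hD hτ hv b J
      (by
        intro x hx z hz y hxy hyz
        rw [hmemJ] at hx hz ⊢
        apply hconv _ hx _ hz
        · gcongr
        · gcongr)
      (by
        intro j hj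
        rw [hmemJ] at hj
        exact hS _ hj)
    calc _ ≤ 1 * ‖∑ j ∈ J, G (b + ψ.q * j)‖ := by gcongr
      _ = ‖∑ j ∈ J, G (b + ψ.q * j)‖ := one_mul _
      _ ≤ _ := h2
  rw [hsplit]
  calc _ ≤ ∑ b ∈ range ψ.q, ‖∑ k ∈ S.filter (fun k => k % ψ.q = b),
        (starRingEnd ℂ) (co ψ k) * G k‖ := norm_sum_le _ _
    _ ≤ ∑ b ∈ range ψ.q, C * (Real.sqrt T + K / Real.sqrt T) := sum_le_sum hclass
    _ = _ := by
      rw [sum_const, card_range, nsmul_eq_mul]
      ring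

/-- removing the two weights -/
lemma weights (S : Finset ℕ) (F : ℕ → ℂ) (φ₁ φ₂ : ℝ → ℝ) (M₁ M₂ B : ℝ)
    (h1 : ∀ i ∈ S, ∀ j ∈ S, i ≤ j → φ₁ j ≤ φ₁ i) (h2 : ∀ i ∈ S, ∀ j ∈ S, i ≤ j → φ₂ i ≤ φ₂ j)
    (b1 : ∀ i ∈ S, 0 ≤ φ₁ i ∧ φ₁ i ≤ M₁) (b2 : ∀ i ∈ S, 0 ≤ φ₂ i ∧ φ₂ i ≤ M₂)
    (hM₁ : 0 ≤ M₁) (hM₂ : 0 ≤ M₂) (hB : 0 ≤ B)
    (h : ∀ c : ℝ, ‖∑ i ∈ S.filter (fun i : ℕ => (i : ℝ) ≤ c), F i‖ ≤ B) :
    ‖∑ i ∈ S, ((φ₂ i : ℝ) : ℂ) * (((φ₁ i : ℝ) : ℂ) * F i)‖ ≤ 4 * (M₂ * M₁ * B) := by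
  have key : ∀ c : ℝ, ‖∑ i ∈ S.filter (fun i : ℕ => (i : ℝ) ≤ c), ((φ₁ i : ℝ) : ℂ) * F i‖ ≤
      2 * M₁ * B := by
    intro c
    apply Pool.Agent.H67.Cubic.abel ℕ (S.filter (fun i : ℕ => (i : ℝ) ≤ c))
      (fun i : ℕ => (i : ℝ)) F φ₁ M₁ B
    · left
      intro i hi j hj hij
      exact h1 i (mem_filter.mp hi).1 j (mem_filter.mp hj).1 (by exact_mod_cast hij)
    · intro i hi
      exact b1 i (mem_filter.mp hi).1
    · exact hM₁
    · exact hB
    · intro c'
      have := h (min c c')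
      have e1 : (S.filter (fun i : ℕ => (i : ℝ) ≤ c)).filter (fun i : ℕ => (i : ℝ) ≤ c') =
          S.filter (fun i : ℕ => (i : ℝ) ≤ min c c') := by
        ext i
        simp only [mem_filter, le_min_iff, and_assoc]
      rw [e1]
      exact this
  have := Pool.Agent.H67.Cubic.abel ℕ S (fun i : ℕ => (i : ℝ))
    (fun i => ((φ₁ i : ℝ) : ℂ) * F i) φ₂ M₂ (2 * M₁ * B)
    (by
      right
      intro i hi j hj hij
      exact h2 i hi j hj (by exact_mod_cast hij))
    b2 hM₂ (by positivity) key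
  refine this.trans_eq ?_
  ring

theorem ks (hVS : T_VS) (hVV : T_VV) : T_KS := by
  intro q ψ r hq hr hr2
  obtain ⟨C, hC, hcl⟩ := classes hVS ψ q hq r hr
  have hpi := Real.pi_gt_three
  have hq' : (1 : ℝ) ≤ q := by exact_mod_cast hq
  refine ⟨r * (r - 1) / 8, 4 * ((2 * q) * (4 * Real.pi) * C), by
    have : 0 < r * (r - 1) := mul_pos (by linarith) (by linarith)
    linarith, by positivity, ?_⟩
  intro T u τ η M Z v h l μ hT hu1 hu2 hτ hη0 hη hM hZ hh hl hμ hv
  have hT0 : 0 < T := by linarith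
  have hh' : (1 : ℝ) ≤ h := by exact_mod_cast hh
  have hl' : (1 : ℝ) ≤ l := by exact_mod_cast hl
  have hμ' : (1 : ℝ) ≤ μ := by exact_mod_cast hμ
  have hex : ∃ B : ℕ, ∀ k : ℕ, μ * (((k : ℝ) * l) ^ r / h) / q ≤ u / Real.pi → k ≤ B := by
    refine ⟨⌈u / Real.pi * q * h⌉₊, fun k hk => ?_⟩
    rcases Nat.eq_zero_or_pos k with rfl | hk0
    · exact Nat.zero_le _
    have hk1 : (1 : ℝ) ≤ k := by exact_mod_cast hk0
    have h1 : (k : ℝ) ≤ ((k : ℝ) * l) ^ r := by
      have h2 : 1 ≤ (k : ℝ) * l := by nlinarith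
      calc (k : ℝ) ≤ k * l := by nlinarith
        _ = ((k : ℝ) * l) ^ (1 : ℝ) := (Real.rpow_one _).symm
        _ ≤ _ := Real.rpow_le_rpow_of_exponent_le h2 hr.le
    have h3 : ((k : ℝ) * l) ^ r ≤ u / Real.pi * q * h := by
      have h4 : (((k : ℝ) * l) ^ r / h) / q ≤ u / Real.pi := by
        refine le_trans ?_ hk
        have h5 : 0 ≤ (((k : ℝ) * l) ^ r / h) := by positivity
        gcongr
        nlinarith
      rw [div_le_iff₀ (by linarith), div_le_iff₀ (by linarith)] at h4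
      exact h4
    have h6 : (k : ℝ) ≤ (⌈u / Real.pi * q * h⌉₊ : ℕ) := (h1.trans h3).trans (Nat.le_ceil _)
    exact_mod_cast h6
  refine ⟨hex, ?_⟩
  obtain ⟨B, hB⟩ := hex
  -- parameters
  set D : ℝ := μ * ((l : ℝ) ^ r / h) / q with hDdef
  have hlr : 0 < (l : ℝ) ^ r := Real.rpow_pos_of_pos (by linarith) r
  have hD0 : 0 < D := by positivity
  set K : ℝ := (T * h / μ) ^ (1 / r) / l with hKdef
  have hK0 : 0 < K := by positivity
  have hDK : D * K ^ r = T / q := by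
    rw [hDdef, hKdef, Real.div_rpow (by positivity) (by linarith), ← Real.rpow_mul (by positivity)]
    rw [one_div_mul_cancel (by linarith), Real.rpow_one]
    field_simp
  have hDk : ∀ k : ℕ, μ * (((k : ℝ) * l) ^ r / h) / q = D * (k : ℝ) ^ r := by
    intro k
    rw [Real.mul_rpow (Nat.cast_nonneg k) (by linarith), hDdef]
    ring
  classical
  set P : ℕ → Prop := fun k => Z < ((k : ℝ) * l) ^ r ∧
    u / (4 * Real.pi) ≤ μ * (((k : ℝ) * l) ^ r / h) / q ∧
          μ * (((k : ℝ) * l) ^ r / h) / q ≤ u / Real.pi with hP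
  set S : Finset ℕ := (range (B + 1)).filter P with hSdef
  have hmemS : ∀ k, k ∈ S ↔ P k := by
    intro k
    rw [hSdef, mem_filter, mem_range]
    constructor
    · exact fun h => h.2
    · intro h
      exact ⟨by have := hB k h.2.2; omega, h⟩
  have hPpos : ∀ k, P k → 1 ≤ k := by
    intro k hk
    by_contra h0
    have h1 : k = 0 := by omega
    subst h1
    have h2 := hk.2.1
    rw [hDk] at h2
    simp only [Nat.cast_zero] at h2
    rw [Real.zero_rpow (by linarith), mul_zero] at h2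
    have : 0 < u / (4 * Real.pi) := by
      have : 0 < u := by linarith
      positivity
    linarith
  have hSconv : ∀ x ∈ S, ∀ z ∈ S, ∀ y, x ≤ y → y ≤ z → y ∈ S := by
    intro x hx z hz y hxy hyz
    rw [hmemS] at hx hz ⊢
    have hxy' : (x : ℝ) ≤ y := by exact_mod_cast hxy
    have hyz' : (y : ℝ) ≤ z := by exact_mod_cast hyz
    have hx0 : (0 : ℝ) ≤ x := Nat.cast_nonneg x
    have hy0 : (0 : ℝ) ≤ y := Nat.cast_nonneg y
    refine ⟨lt_of_lt_of_le hx.1 ?_, hx.2.1.trans ?_, le_trans ?_ hz.2.2⟩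
    · exact Real.rpow_le_rpow (by positivity) (by gcongr) (by linarith)
    · have := Real.rpow_le_rpow (by positivity : (0 : ℝ) ≤ x * l) (by gcongr : (x : ℝ) * l ≤ y * l)
        (by linarith : (0 : ℝ) ≤ r)
      gcongr
    · have := Real.rpow_le_rpow (by positivity : (0 : ℝ) ≤ y * l) (by gcongr : (y : ℝ) * l ≤ z * l)
        (by linarith : (0 : ℝ) ≤ r)
      gcongr
  have hSloc : ∀ k ∈ S, 1 ≤ k ∧ T / (4 * Real.pi) ≤ D * (k : ℝ) ^ r ∧
        D * (k : ℝ) ^ r ≤ 2 * T / Real.pi := by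
    intro k hk
    rw [hmemS] at hk
    have h1 := hk.2.1
    have h2 := hk.2.2
    rw [hDk] at h1 h2
    refine ⟨hPpos k hk, le_trans ?_ h1, h2.trans ?_⟩
    · gcongr
    · gcongr
  have hkloc : ∀ k ∈ S, K / (4 * Real.pi) ≤ k := by
    intro k hk
    obtain ⟨h1, h2, h3⟩ := hSloc k hk
    have h1' : (1 : ℝ) ≤ k := by exact_mod_cast h1
    exact (loc hq hr hT hK0 hDK (by linarith) h2 h3).1
  -- the sum is finite
  have htsum : (∑' k : ℕ, if Z < ((k : ℝ) * l) ^ r ∧ u / (4 * Real.pi) ≤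
          μ * (((k : ℝ) * l) ^ r / h) / q ∧ μ * (((k : ℝ) * l) ^ r / h) / q ≤ u / Real.pi then
          (starRingEnd ℂ) (co ψ k) * (((k : ℝ) ^ (-(1 / 2 - r * η)) * V (k / M) *
            (((k : ℝ) * l) ^ r / h) ^ (1 - (1 / 2 - η)) : ℝ) : ℂ) *
            ei (τ * Real.log k + 2 * Real.pi * (μ / q) * (((k : ℝ) * l) ^ r / h) * Real.exp v)
          else 0) =
      ∑ k ∈ S, ((((l : ℝ) ^ r / h) ^ (1 / 2 + η) * (k : ℝ) ^ ((r - 1) / 2 + 2 * r * η) : ℝ) : ℂ) *
        (((V ((k : ℝ) / M) : ℝ) : ℂ) * ((starRingEnd ℂ) (co ψ k) * ei (τ * Real.log k +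
        2 * Real.pi * (D * (k : ℝ) ^ r) * Real.exp v))) := by
    rw [tsum_eq_sum (s := S)]
    · refine sum_congr rfl fun k hk => ?_
      have hPk := (hmemS k).mp hk
      rw [if_pos hPk]
      have hk1 : (1 : ℝ) ≤ k := by exact_mod_cast hPpos k hPk
      have hk0 : (0 : ℝ) < k := by linarith
      have e1 : (k : ℝ) ^ (-(1 / 2 - r * η)) * V (k / M) *
            (((k : ℝ) * l) ^ r / h) ^ (1 - (1 / 2 - η)) =
          (((l : ℝ) ^ r / h) ^ (1 / 2 + η) * (k : ℝ) ^ ((r - 1) / 2 + 2 * r * η)) *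
            V ((k : ℝ) / M) := by
        have e2 : (((k : ℝ) * l) ^ r / h) ^ (1 - (1 / 2 - η)) =
            ((l : ℝ) ^ r / h) ^ (1 / 2 + η) * (k : ℝ) ^ (r * (1 / 2 + η)) := by
          rw [Real.mul_rpow hk0.le (by linarith), mul_div_assoc,
            Real.mul_rpow (by positivity) (by positivity), ← Real.rpow_mul hk0.le]
          rw [show 1 - (1 / 2 - η) = 1 / 2 + η by ring]
          ring
        have e3 : (k : ℝ) ^ ((r - 1) / 2 + 2 * r * η) =
            (k : ℝ) ^ (-(1 / 2 - r * η)) * (k : ℝ) ^ (r * (1 / 2 + η)) := by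
          rw [← Real.rpow_add hk0]
          congr 1
          ring
        rw [e2, e3]
        ring
      have e4 : 2 * Real.pi * (μ / q) * (((k : ℝ) * l) ^ r / h) * Real.exp v =
          2 * Real.pi * (D * (k : ℝ) ^ r) * Real.exp v := by
        rw [← hDk]
        ring
      rw [e1, e4]
      push_cast
      ring
    · intro k hk
      rw [hmemS] at hk
      exact if_neg hk
  rw [htsum]
  obtain ⟨hV0, hVanti, -⟩ := hVV
  have hη' : 0 ≤ (r - 1) / 2 + 2 * r * η := by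
    have : 0 ≤ 2 * r * η := by positivity
    linarith
  set e₀ : ℝ := 1 / 2 - r * η with he₀
  have he1 : 0 ≤ e₀ := by
    rw [he₀]
    nlinarith
  have he2 : e₀ ≤ 1 := by
    have : 0 ≤ r * η := by positivity
    rw [he₀]
    linarith
  have hw := weights S (fun k => (starRingEnd ℂ) (co ψ k) * ei (τ * Real.log k +
        2 * Real.pi * (D * (k : ℝ) ^ r) * Real.exp v)) (fun y => V (y / M))
    (fun y => ((l : ℝ) ^ r / h) ^ (1 / 2 + η) * y ^ ((r - 1) / 2 + 2 * r * η)) 1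
    ((2 * q) * (4 * Real.pi) * (T / μ) ^ (1 / 2 + η) * K ^ (-e₀))
    (C * (Real.sqrt T + K / Real.sqrt T))
    (by
      intro i hi j hj hij
      have hi1 : (1 : ℝ) ≤ i := by exact_mod_cast (hSloc i hi).1
      have hj1 : (1 : ℝ) ≤ j := by exact_mod_cast (hSloc j hj).1
      have hij' : (i : ℝ) ≤ j := by exact_mod_cast hij
      apply hVanti
      · exact Set.mem_Ioi.mpr (by positivity)
      · exact Set.mem_Ioi.mpr (by positivity)
      · gcongr)
    (by
      intro i hi j hj hij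
      have hij' : (i : ℝ) ≤ j := by exact_mod_cast hij
      have h1 := Real.rpow_le_rpow (Nat.cast_nonneg i) hij' hη'
      have h2 : 0 ≤ ((l : ℝ) ^ r / h) ^ (1 / 2 + η) := by positivity
      exact mul_le_mul_of_nonneg_left h1 h2)
    (by
      intro i hi
      have hi1 : (1 : ℝ) ≤ i := by exact_mod_cast (hSloc i hi).1
      exact hV0 _ (by positivity))
    (by
      intro i hi
      obtain ⟨h1, h2, h3⟩ := hSloc i hi
      have hi1 : (1 : ℝ) ≤ i := by exact_mod_cast h1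
      have hi0 : (0 : ℝ) < i := by linarith
      refine ⟨by positivity, ?_⟩
      have e1 : ((l : ℝ) ^ r / h) ^ (1 / 2 + η) * (i : ℝ) ^ ((r - 1) / 2 + 2 * r * η) =
          (i : ℝ) ^ (-e₀) * (q / μ * (D * (i : ℝ) ^ r)) ^ (1 / 2 + η) := by
        have e2 : q / μ * (D * (i : ℝ) ^ r) = ((l : ℝ) ^ r / h) * (i : ℝ) ^ r := by
          rw [hDdef]
          field_simp
        rw [e2, Real.mul_rpow (by positivity) (by positivity), ← Real.rpow_mul hi0.le]
        have e3 : (i : ℝ) ^ ((r - 1) / 2 + 2 * r * η) =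
            (i : ℝ) ^ (-e₀) * (i : ℝ) ^ (r * (1 / 2 + η)) := by
          rw [← Real.rpow_add hi0]
          congr 1
          rw [he₀]
          ring
        rw [e3]
        ring
      rw [e1]
      have h4 : (i : ℝ) ^ (-e₀) ≤ 4 * Real.pi * K ^ (-e₀) := by
        rw [Real.rpow_neg hi0.le, Real.rpow_neg hK0.le]
        have h5 : (K / (4 * Real.pi)) ^ e₀ ≤ (i : ℝ) ^ e₀ :=
          Real.rpow_le_rpow (by positivity) (hkloc i hi) he1
        have h6 : K ^ e₀ ≤ 4 * Real.pi * (K / (4 * Real.pi)) ^ e₀ := by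
          rw [Real.div_rpow hK0.le (by positivity)]
          have h7 : (4 * Real.pi) ^ e₀ ≤ 4 * Real.pi := by
            calc (4 * Real.pi) ^ e₀ ≤ (4 * Real.pi) ^ (1 : ℝ) :=
                  Real.rpow_le_rpow_of_exponent_le (by linarith) he2
              _ = _ := Real.rpow_one _
          have h8 : 0 < (4 * Real.pi) ^ e₀ := by positivity
          rw [← mul_div_assoc, le_div_iff₀ h8]
          have h9 : 0 ≤ K ^ e₀ := by positivity
          nlinarith
        have hKe : 0 < K ^ e₀ := by positivity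
        have hie : 0 < (i : ℝ) ^ e₀ := by positivity
        rw [← div_eq_mul_inv, ← one_div, div_le_div_iff₀ hie hKe]
        nlinarith
      have h5 : (q / μ * (D * (i : ℝ) ^ r)) ^ (1 / 2 + η) ≤ 2 * q * (T / μ) ^ (1 / 2 + η) := by
        have h6 : q / μ * (D * (i : ℝ) ^ r) ≤ (2 * q) * (T / μ) := by
          calc q / μ * (D * (i : ℝ) ^ r) ≤ q / μ * (2 * T / Real.pi) := by gcongr
            _ ≤ q / μ * (2 * T) := by
                gcongr
                exact div_le_self (by positivity) (by linarith)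
            _ = _ := by ring
        calc _ ≤ ((2 * q) * (T / μ)) ^ (1 / 2 + η) :=
              Real.rpow_le_rpow (by positivity) h6 (by linarith)
          _ = (2 * q : ℝ) ^ (1 / 2 + η) * (T / μ) ^ (1 / 2 + η) :=
              Real.mul_rpow (by positivity) (by positivity)
          _ ≤ (2 * q : ℝ) ^ (1 : ℝ) * (T / μ) ^ (1 / 2 + η) := by
              gcongr
              · linarith
              · linarith
          _ = _ := by rw [Real.rpow_one]
      calc _ ≤ (4 * Real.pi * K ^ (-e₀)) * (2 * q * (T / μ) ^ (1 / 2 + η)) := by gcongr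
        _ = _ := by ring)
    (by norm_num) (by positivity) (by positivity)
    (by
      intro c
      apply hcl T D K τ v hT hD0 hK0 hDK hτ hv
      · intro x hx z hz y hxy hyz
        rw [mem_filter] at hx hz ⊢
        refine ⟨hSconv x hx.1 z hz.1 y hxy hyz, le_trans ?_ hz.2⟩
        exact_mod_cast hyz
      · intro k hk
        exact hSloc k (mem_filter.mp hk).1)
  refine hw.trans_eq ?_
  ring

end Pool.Agent.H32.PZ
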