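import Pool.Agent.H28.MZ.Targets
import Pool.Agent.H24.Sqf.KL

/-! Module VS: van der Corput's second derivative test for sums. -/

set_option autoImplicit false

open Finset

namespace Pool.Agent.H32.PZ

open Pool.Agent.H24.Sqf (e norm_e e_add e_neg e_sub kusmin_landau_range)

/-- the norm does not change under an integral linear twist -/
lemma norm_sum_twist (g : ℕ → ℝ) (k : ℤ) (s : Finset ℕ) :
    ‖∑ n ∈ s, e (-(g n - k * n))‖ = ‖∑ n ∈ s, e (g n)‖ := by
  have h1 : ∀ n ∈ s, e (-(g n - k * n)) = (starRingEnd ℂ) (e (g n)) := by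
    intro n _
    have h2 : -(g n - k * n) = -(g n) + (k * n : ℝ) := by ring
    rw [h2, e_add, e_neg]
    have h3 : e (k * n : ℝ) = 1 := by
      unfold Pool.Agent.H24.Sqf.e
      rw [Complex.exp_eq_one_iff]
      refine ⟨k * n, ?_⟩
      push_cast
      ring
    rw [h3, mul_one]
  rw [sum_congr rfl h1, ← map_sum, Complex.norm_conj]

/-- slopes in `[k + 1/2, k + 1 - δ]` -/
lemma good2 (g : ℕ → ℝ) (k : ℤ) (δ : ℝ) (hδ : 0 < δ) (a b : ℕ) (hab : a ≤ b)
    (h1 : ∀ n, a ≤ n → n < b → (k : ℝ) + 1 / 2 ≤ g (n + 1) - g n ∧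
      g (n + 1) - g n ≤ k + 1 - δ)
    (hm : ∀ n, a ≤ n → n + 1 < b → g (n + 1) - g n ≤ g (n + 2) - g (n + 1)) :
    ‖∑ n ∈ Ico a b, e (g n)‖ ≤ 1 / δ := by
  rw [← norm_sum_twist g (k + 1), sum_Ico_eq_sum_range]
  have := kusmin_landau_range (fun n => -(g (a + n) - ((k + 1 : ℤ) : ℝ) * ((a + n : ℕ) : ℝ))) (b - a) δ hδ
    ?_ ?_ ?_
  · exact this
  · intro n hn
    have h2 := (h1 (a + n) (by omega) (by omega)).2
    have h3 : a + (n + 1) = a + n + 1 := by omega
    simp only [h3]
    push_cast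
    linarith
  · intro n hn
    have h2 := (h1 (a + n) (by omega) (by omega)).1
    have h3 : a + (n + 1) = a + n + 1 := by omega
    simp only [h3]
    push_cast
    linarith
  · intro n hn
    have h2 := hm (a + n) (by omega) (by omega)
    have h3 : a + (n + 1) = a + n + 1 := by omega
    have h4 : a + (n + 2) = a + n + 2 := by omega
    simp only [h3, h4]
    push_cast
    linarith

/-- slopes in `[k + δ, k + 1/2]` -/
lemma good1 (g : ℕ → ℝ) (k : ℤ) (δ : ℝ) (hδ : 0 < δ) (a b : ℕ) (hab : a ≤ b)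
    (h1 : ∀ n, a ≤ n → n < b → (k : ℝ) + δ ≤ g (n + 1) - g n ∧
      g (n + 1) - g n ≤ k + 1 / 2)
    (hm : ∀ n, a ≤ n → n + 1 < b → g (n + 1) - g n ≤ g (n + 2) - g (n + 1)) :
    ‖∑ n ∈ Ico a b, e (g n)‖ ≤ 1 / δ + 2 := by
  rcases hab.eq_or_lt with rfl | hab
  · simp
    positivity
  obtain ⟨L, rfl⟩ : ∃ L, b = a + L := ⟨b - a, by omega⟩
  have e1 : ∑ n ∈ Ico a (a + L), e (g n) =
      ∑ m ∈ range L, e (g (a + L - m)) + e (g a) - e (g (a + L)) := by
    have e2 : ∑ m ∈ range L, e (g (a + L - m)) = ∑ n ∈ range L, e (g (a + 1 + n)) := by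
      rw [← sum_range_reflect]
      refine sum_congr rfl fun n hn => ?_
      have := mem_range.mp hn
      congr 2
      omega
    have e3 : ∑ n ∈ Ico a (a + L), e (g n) = ∑ n ∈ range L, e (g (a + n)) := by
      rw [sum_Ico_eq_sum_range]
      congr 2
      omega
    have e4 : ∑ n ∈ range (L + 1), e (g (a + n)) = ∑ n ∈ range L, e (g (a + n)) + e (g (a + L)) :=
      sum_range_succ _ _
    have e5 : ∑ n ∈ range (L + 1), e (g (a + n)) =
        ∑ n ∈ range L, e (g (a + 1 + n)) + e (g a) := by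
      rw [sum_range_succ']
      congr 1
      refine sum_congr rfl fun n _ => ?_
      congr 2
      omega
    rw [e2, e3]
    linear_combination e5 - e4
  have key : ‖∑ m ∈ range L, e (g (a + L - m))‖ ≤ 1 / δ := by
    have e2 : ∑ m ∈ range L, e (g (a + L - m)) = ∑ m ∈ range L, e ((fun n : ℕ => g (a + L - n)) m) :=
      rfl
    rw [e2, ← norm_sum_twist (fun n : ℕ => g (a + L - n)) (-k)]
    have := kusmin_landau_range (fun n : ℕ => -(g (a + L - n) - (((-k : ℤ)) : ℝ) * (n : ℝ))) L δ hδ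
      ?_ ?_ ?_
    · exact this
    · intro n hn
      have h2 := (h1 (a + L - (n + 1)) (by omega) (by omega)).1
      have h3 : a + L - (n + 1) + 1 = a + L - n := by omega
      rw [h3] at h2
      push_cast
      linarith
    · intro n hn
      have h2 := (h1 (a + L - (n + 1)) (by omega) (by omega)).2
      have h3 : a + L - (n + 1) + 1 = a + L - n := by omega
      rw [h3] at h2
      push_cast
      linarith
    · intro n hn
      have h2 := hm (a + L - (n + 2)) (by omega) (by omega)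
      have h3 : a + L - (n + 2) + 1 = a + L - (n + 1) := by omega
      have h4 : a + L - (n + 2) + 2 = a + L - n := by omega
      rw [h3, h4] at h2
      push_cast
      linarith
  rw [e1]
  calc ‖∑ m ∈ range L, e (g (a + L - m)) + e (g a) - e (g (a + L))‖
      ≤ ‖∑ m ∈ range L, e (g (a + L - m)) + e (g a)‖ + ‖e (g (a + L))‖ := norm_sub_le _ _
    _ ≤ ‖∑ m ∈ range L, e (g (a + L - m))‖ + ‖e (g a)‖ + ‖e (g (a + L))‖ := by
        gcongr
        exact norm_add_le _ _
    _ ≤ 1 / δ + 1 + 1 := by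
        rw [norm_e, norm_e]
        gcongr
    _ = _ := by ring

/-- few slopes near an integer -/
lemma bad (g : ℕ → ℝ) (c δ lam : ℝ) (hδ : 0 < δ) (hlam : 0 < lam) (a b : ℕ) (hab : a ≤ b)
    (h1 : ∀ n, a ≤ n → n < b → c ≤ g (n + 1) - g n ∧ g (n + 1) - g n ≤ c + 2 * δ)
    (hm : ∀ n, a ≤ n → n + 1 < b → g (n + 1) - g n + lam ≤ g (n + 2) - g (n + 1)) :
    ‖∑ n ∈ Ico a b, e (g n)‖ ≤ 2 * δ / lam + 1 := by
  rcases hab.eq_or_lt with rfl | hab
  · simp
    positivity
  have h2 : ∀ j : ℕ, a + j < b → g (a + 1) - g a + j * lam ≤ g (a + j + 1) - g (a + j) := by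
    intro j
    induction j with
    | zero => intro _; simp
    | succ j ih =>
      intro h
      have h3 := ih (by omega)
      have h4 := hm (a + j) (by omega) (by omega)
      have h5 : a + (j + 1) = a + j + 1 := by omega
      rw [h5]
      push_cast
      have h6 : a + j + 1 + 1 = a + j + 2 := by omega
      rw [h6]
      linarith
  have h3 := h2 (b - a - 1) (by omega)
  have h4 := (h1 a le_rfl hab).1
  have h5 := (h1 (a + (b - a - 1)) (by omega) (by omega)).2
  have h6 : ((b - a - 1 : ℕ) : ℝ) * lam ≤ 2 * δ := by linarith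
  have h7 : ((b - a - 1 : ℕ) : ℝ) ≤ 2 * δ / lam := by
    rw [le_div_iff₀ hlam]
    exact h6
  have h8 : ((b - a - 1 : ℕ) : ℝ) = (b : ℝ) - a - 1 := by
    have : b - a - 1 = b - (a + 1) := by omega
    rw [this, Nat.cast_sub (by omega)]
    push_cast
    ring
  calc ‖∑ n ∈ Ico a b, e (g n)‖ ≤ ∑ n ∈ Ico a b, ‖e (g n)‖ := norm_sum_le _ _
    _ = ((b - a : ℕ) : ℝ) := by
        rw [sum_congr rfl fun n _ => norm_e (g n), sum_const, Nat.card_Ico, nsmul_eq_mul, mul_one]
    _ = (b : ℝ) - a := by rw [Nat.cast_sub hab.le]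
    _ ≤ _ := by linarith

/-- the number of slopes below `x` -/
lemma exists_thr (M : ℕ) (d : ℕ → ℝ) (hd : ∀ m n, m ≤ n → n < M → d m ≤ d n) (x : ℝ) :
    ∃ m, m ≤ M ∧ ∀ n, n < M → (d n < x ↔ n < m) := by
  classical
  have hex : ∃ n, n = M ∨ (n < M ∧ x ≤ d n) := ⟨M, Or.inl rfl⟩
  refine ⟨Nat.find hex, Nat.find_min' hex (Or.inl rfl), fun n hn => ?_⟩
  constructor
  · intro h
    by_contra h2
    push Not at h2
    rcases Nat.find_spec hex with h3 | h3
    · omega
    · have := hd _ _ h2 hn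
      linarith [h3.2]
  · intro h
    have := Nat.find_min hex h
    push Not at this
    exact this.2 hn

/-- the discrete second derivative test -/
theorem vs_disc (α lam : ℝ) (hα : 1 ≤ α) (hlam : 0 < lam) (g : ℕ → ℝ) (N : ℕ)
    (h1 : ∀ n, n + 2 < N → lam ≤ (g (n + 2) - g (n + 1)) - (g (n + 1) - g n) ∧
      (g (n + 2) - g (n + 1)) - (g (n + 1) - g n) ≤ α * lam) :
    ‖∑ n ∈ range N, e (g n)‖ ≤ (6 * α + 19) * (N * Real.sqrt lam + 1 / Real.sqrt lam) := by
  have hs : 0 < Real.sqrt lam := Real.sqrt_pos.mpr hlam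
  have hss : Real.sqrt lam * Real.sqrt lam = lam := Real.mul_self_sqrt hlam.le
  set δ := Real.sqrt lam with hδ
  have triv : ‖∑ n ∈ range N, e (g n)‖ ≤ N := by
    calc _ ≤ ∑ n ∈ range N, ‖e (g n)‖ := norm_sum_le _ _
      _ = N := by
        rw [sum_congr rfl fun n _ => norm_e (g n), sum_const, card_range, nsmul_eq_mul, mul_one]
  by_cases hbig : 1 / 2 < δ
  · refine triv.trans ?_
    have : (N : ℝ) ≤ 2 * (N * δ) := by nlinarith [(Nat.cast_nonneg N : (0 : ℝ) ≤ N)]
    have h2 : 0 ≤ 1 / δ := by positivity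
    have h3 : 0 ≤ (N : ℝ) * δ := by positivity
    nlinarith
  push Not at hbig
  rcases N with _ | M
  · simp
    positivity
  rcases Nat.eq_zero_or_pos M with rfl | hM
  · refine triv.trans ?_
    have h2 : 1 ≤ 1 / δ := by
      rw [le_div_iff₀ hs]
      linarith
    have h3 : 0 ≤ ((0 + 1 : ℕ) : ℝ) * δ := by positivity
    push_cast at h3 ⊢
    nlinarith
  set d : ℕ → ℝ := fun n => g (n + 1) - g n with hd
  have hstep : ∀ n, n + 1 < M → d n + lam ≤ d (n + 1) ∧ d (n + 1) ≤ d n + α * lam := by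
    intro n hn
    have h2 := h1 n (by omega)
    have e1 : d (n + 1) = g (n + 2) - g (n + 1) := rfl
    have e2 : d n = g (n + 1) - g n := rfl
    rw [e1, e2]
    constructor <;> linarith [h2.1, h2.2]
  have hmono : ∀ m n, m ≤ n → n < M → d m ≤ d n := by
    intro m n hmn
    induction n, hmn using Nat.le_induction with
    | base => intro _; exact le_rfl
    | succ n hn ih =>
      intro h
      have := ih (by omega)
      have h3 := (hstep n h).1
      linarith
  have htot : ∀ n, n < M → d n ≤ d 0 + n * (α * lam) := by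
    intro n
    induction n with
    | zero => intro _; simp
    | succ n ih =>
      intro h
      have := ih (by omega)
      have h3 := (hstep n h).2
      push_cast
      linarith
  choose m hmM hm using exists_thr M d hmono
  set F : ℝ → ℂ := fun x => ∑ n ∈ range (m x), e (g n) with hF
  have hmm : ∀ x y, x ≤ y → m x ≤ m y := by
    intro x y hxy
    by_contra h
    push Not at h
    have h2 := hmM x
    have h3 : m y < M := by omega
    have h4 := (hm x (m y) h3).mpr h
    have h5 := (hm y (m y) h3).mp (by linarith)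
    omega
  have hFd : ∀ x y, x ≤ y → F y - F x = ∑ n ∈ Ico (m x) (m y), e (g n) := by
    intro x y hxy
    rw [sum_Ico_eq_sub _ (hmm x y hxy)]
  have hmem : ∀ x y n, x ≤ y → m x ≤ n → n < m y → x ≤ d n ∧ d n < y := by
    intro x y n hxy h2 h3
    have hnM : n < M := lt_of_lt_of_le h3 (hmM y)
    constructor
    · by_contra h
      push Not at h
      have := (hm x n hnM).mp h
      omega
    · exact (hm y n hnM).mpr h3
  -- one period
  have hper : ∀ k : ℤ, ‖F (k + 1 - δ) - F (k - δ)‖ ≤ 6 / δ := by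
    intro k
    have e1 : F (k + 1 - δ) - F (k - δ) = (F (k + δ) - F (k - δ)) + (F (k + 1 / 2) - F (k + δ)) +
        (F (k + 1 - δ) - F (k + 1 / 2)) := by ring
    have b1 : ‖F (k + δ) - F (k - δ)‖ ≤ 2 * δ / lam + 1 := by
      rw [hFd _ _ (by linarith)]
      apply bad g (k - δ) δ lam hs hlam _ _ (hmm _ _ (by linarith))
      · intro n h2 h3
        have := hmem _ _ n (by linarith) h2 h3
        constructor
        · exact this.1
        · have h4 := this.2.le
          have h5 : d n = g (n + 1) - g n := rfl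
          linarith
      · intro n h2 h3
        have h4 := hmM (k + δ)
        exact (hstep n (by omega)).1
    have b2 : ‖F (k + 1 / 2) - F (k + δ)‖ ≤ 1 / δ + 2 := by
      rw [hFd _ _ (by linarith)]
      apply good1 g k δ hs _ _ (hmm _ _ (by linarith))
      · intro n h2 h3
        have := hmem _ _ n (by linarith) h2 h3
        exact ⟨this.1, this.2.le⟩
      · intro n h2 h3
        have h4 := hmM (k + 1 / 2)
        have h5 := (hstep n (by omega)).1
        have e1 : d (n + 1) = g (n + 2) - g (n + 1) := rfl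
        have e2 : d n = g (n + 1) - g n := rfl
        rw [e1, e2] at h5
        linarith
    have b3 : ‖F (k + 1 - δ) - F (k + 1 / 2)‖ ≤ 1 / δ := by
      rw [hFd _ _ (by linarith)]
      apply good2 g k δ hs _ _ (hmm _ _ (by linarith))
      · intro n h2 h3
        have := hmem _ _ n (by linarith) h2 h3
        exact ⟨this.1, this.2.le⟩
      · intro n h2 h3
        have h4 := hmM (k + 1 - δ)
        have h5 := (hstep n (by omega)).1
        have e1 : d (n + 1) = g (n + 2) - g (n + 1) := rfl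
        have e2 : d n = g (n + 1) - g n := rfl
        rw [e1, e2] at h5
        linarith
    rw [e1]
    have h2 : 2 * δ / lam = 2 / δ := by
      rw [← hss]
      field_simp
    have h3 : 2 ≤ 1 / δ := by
      rw [le_div_iff₀ hs]
      linarith
    have h4 : (6 : ℝ) / δ = 6 * (1 / δ) := by ring
    have h5 : (2 : ℝ) / δ = 2 * (1 / δ) := by ring
    rw [h2, h5] at b1
    calc _ ≤ ‖(F (k + δ) - F (k - δ)) + (F (k + 1 / 2) - F (k + δ))‖ +
          ‖F (k + 1 - δ) - F (k + 1 / 2)‖ := norm_add_le _ _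
      _ ≤ ‖F (k + δ) - F (k - δ)‖ + ‖F (k + 1 / 2) - F (k + δ)‖ +
          ‖F (k + 1 - δ) - F (k + 1 / 2)‖ := by gcongr; exact norm_add_le _ _
      _ ≤ (2 * (1 / δ) + 1) + (1 / δ + 2) + 1 / δ := by gcongr
      _ ≤ _ := by rw [h4]; linarith
  have hiter : ∀ (k : ℤ) (j : ℕ), ‖F (k + j - δ) - F (k - δ)‖ ≤ j * (6 / δ) := by
    intro k j
    induction j with
    | zero => simp
    | succ j ih =>
      have h2 := hper (k + j)
      have e1 : F (k + (j + 1 : ℕ) - δ) - F (k - δ) =
          (F (((k + j : ℤ) : ℝ) + 1 - δ) - F (((k + j : ℤ) : ℝ) - δ)) +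
            (F (k + j - δ) - F (k - δ)) := by
        push_cast
        have : (k : ℝ) + (j + 1) - δ = k + j + 1 - δ := by ring
        rw [this]
        ring
      rw [e1]
      calc _ ≤ _ := norm_add_le _ _
        _ ≤ 6 / δ + j * (6 / δ) := add_le_add h2 ih
        _ = _ := by push_cast; ring
  -- start and end
  set k₀ : ℤ := ⌊d 0⌋ with hk₀
  have hk₀1 : (k₀ : ℝ) ≤ d 0 := Int.floor_le _
  have hk₀2 : d 0 < k₀ + 1 := Int.lt_floor_add_one _
  set j : ℕ := ⌈d (M - 1) - d 0⌉₊ + 2 with hj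
  have hj1 : d (M - 1) - d 0 + 2 ≤ j := by
    rw [hj]
    push_cast
    linarith [Nat.le_ceil (d (M - 1) - d 0)]
  have hdd : 0 ≤ d (M - 1) - d 0 := by
    have := hmono 0 (M - 1) (by omega) (by omega)
    linarith
  have hj2 : (j : ℝ) ≤ d (M - 1) - d 0 + 3 := by
    rw [hj]
    push_cast
    linarith [Nat.ceil_lt_add_one hdd]
  have hF0 : F (k₀ - δ) = 0 := by
    have : m (k₀ - δ) = 0 := by
      by_contra h
      have h2 : 0 < m (k₀ - δ) := Nat.pos_of_ne_zero h
      have h3 := (hm (k₀ - δ) 0 hM).mpr h2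
      linarith
    simp only [hF, this, range_zero, sum_empty]
  have hF1 : F (k₀ + j - δ) = ∑ n ∈ range M, e (g n) := by
    have : m (k₀ + j - δ) = M := by
      have h2 := (hm (k₀ + j - δ) (M - 1) (by omega)).mp (by linarith)
      have h3 := hmM (k₀ + j - δ)
      omega
    simp only [hF, this]
  have hfin := hiter k₀ j
  rw [hF0, hF1, sub_zero] at hfin
  rw [sum_range_succ]
  have hM1 : (1 : ℝ) ≤ M := by exact_mod_cast hM
  have htot' := htot (M - 1) (by omega)
  have hMle : ((M - 1 : ℕ) : ℝ) ≤ M := by exact_mod_cast Nat.sub_le M 1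
  have hαl : 0 ≤ α * lam := by positivity
  have h6 : (j : ℝ) ≤ M * (α * lam) + 3 := by
    nlinarith
  have hinv : 1 ≤ 1 / δ := by
    rw [le_div_iff₀ hs]
    linarith
  calc ‖∑ n ∈ range M, e (g n) + e (g M)‖ ≤ ‖∑ n ∈ range M, e (g n)‖ + ‖e (g M)‖ :=
        norm_add_le _ _
    _ ≤ j * (6 / δ) + 1 := by rw [norm_e]; gcongr
    _ ≤ (M * (α * lam) + 3) * (6 / δ) + 1 := by gcongr
    _ = 6 * α * (M * (lam / δ)) + 18 * (1 / δ) + 1 := by field_simp; ring
    _ = 6 * α * (M * δ) + 18 * (1 / δ) + 1 := by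
        congr 4
        rw [div_eq_iff hs.ne']
        exact hss.symm
    _ ≤ (6 * α + 19) * (((M + 1 : ℕ) : ℝ) * δ + 1 / δ) := by
        push_cast
        have h7 : 0 ≤ 1 / δ := by positivity
        have h8 : 0 ≤ (M : ℝ) * δ := by positivity
        nlinarith [mul_nonneg (by linarith : (0 : ℝ) ≤ α) h7, mul_nonneg (by linarith : (0 : ℝ) ≤ α) hs.le]

open Pool.Agent.H28.MZ in
theorem vs : T_VS := by
  intro α hα
  refine ⟨6 * α + 19, by linarith, ?_⟩
  intro A B f f' f'' lam hlam hAB hf hf' hb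
  obtain ⟨N, hN⟩ : ∃ N : ℕ, B = A + N := ⟨(B - A).toNat, by omega⟩
  subst hN
  have e1 : ∑ n ∈ Icc A (A + N), ei (2 * Real.pi * f n) =
      ∑ n ∈ range (N + 1), e (f (A + n)) := by
    have e2 : (Icc A (A + N : ℤ)) = (range (N + 1)).image (fun n : ℕ => A + (n : ℤ)) := by
      ext x
      simp only [mem_Icc, mem_image, mem_range]
      constructor
      · rintro ⟨h1, h2⟩
        exact ⟨(x - A).toNat, by omega, by omega⟩
      · rintro ⟨n, h1, rfl⟩
        constructor <;> omega
    rw [e2, sum_image (by intro a _ b _ h; simpa using h)]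
    refine sum_congr rfl fun n _ => ?_
    push_cast
    rfl
  rw [e1]
  -- derivative of the difference
  have hstep' : ∀ x, (A : ℝ) ≤ x → x + 1 ≤ A + N → lam ≤ f' (x + 1) - f' x ∧
      f' (x + 1) - f' x ≤ α * lam := by
    intro x hx1 hx2
    obtain ⟨c, hc, hc'⟩ := exists_hasDerivAt_eq_slope f' f'' (show x < x + 1 by linarith)
      (by
        intro y hy
        have := hf' y ⟨by linarith [hy.1], by push_cast; linarith [hy.2]⟩
        exact this.continuousAt.continuousWithinAt)
      (by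
        intro y hy
        exact hf' y ⟨by linarith [hy.1], by push_cast; linarith [hy.2]⟩)
    have h2 := hb c ⟨by linarith [hc.1], by push_cast; linarith [hc.2]⟩
    have h3 : f'' c = f' (x + 1) - f' x := by
      rw [hc']
      simp
    rw [h3] at h2
    exact h2
  have hstep : ∀ x, (A : ℝ) ≤ x → x + 2 ≤ A + N →
      lam ≤ (f (x + 2) - f (x + 1)) - (f (x + 1) - f x) ∧
      (f (x + 2) - f (x + 1)) - (f (x + 1) - f x) ≤ α * lam := by
    intro x hx1 hx2
    have hd : ∀ y ∈ Set.Icc x (x + 1), HasDerivAt (fun z => f (z + 1) - f z)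
        (f' (y + 1) - f' y) y := by
      intro y hy
      have h1 := hf y ⟨by linarith [hy.1], by push_cast; linarith [hy.2]⟩
      have h2 := hf (y + 1) ⟨by linarith [hy.1], by push_cast; linarith [hy.2]⟩
      exact (h2.comp_add_const y 1).sub h1
    obtain ⟨c, hc, hc'⟩ := exists_hasDerivAt_eq_slope (fun z => f (z + 1) - f z)
      (fun z => f' (z + 1) - f' z) (show x < x + 1 by linarith)
      (fun y hy => (hd y hy).continuousAt.continuousWithinAt)
      (fun y hy => hd y ⟨hy.1.le, hy.2.le⟩)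
    have h2 := hstep' c (by linarith [hc.1]) (by linarith [hc.2])
    have h3 : f' (c + 1) - f' c = (f (x + 2) - f (x + 1)) - (f (x + 1) - f x) := by
      rw [hc']
      have : x + 1 + 1 = x + 2 := by ring
      rw [this]
      simp
    rw [h3] at h2
    exact h2
  have := vs_disc α lam hα hlam (fun n => f (A + n)) (N + 1) (by
    intro n hn
    have h1 := hstep (A + n) (by linarith [(Nat.cast_nonneg n : (0 : ℝ) ≤ n)]) (by
      have : ((n + 2 : ℕ) : ℝ) ≤ N := by exact_mod_cast (by omega : n + 2 ≤ N)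
      push_cast at this
      linarith)
    have e2 : (A : ℝ) + ((n + 2 : ℕ) : ℝ) = A + n + 2 := by push_cast; ring
    have e3 : (A : ℝ) + ((n + 1 : ℕ) : ℝ) = A + n + 1 := by push_cast; ring
    simp only [e2, e3]
    exact h1)
  refine this.trans_eq ?_
  congr 2
  push_cast
  ring

end Pool.Agent.H32.PZ
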